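import Mathlib

namespace Pool.Agent.Results.MP_607283_al.KO

universe u

/-- The intersection of the kernels of all ordinary representations. -/
def KO (G : Type u) [Group G] [TopologicalSpace G] : Subgroup G :=
  ⨅ (n : ℕ) (ρ : G →* GL (Fin n) ℂ) (_ : Continuous ρ), ρ.ker

noncomputable section
variable (A : Type u) [CommGroup A]

abbrev V := A × ℕ →₀ ℤ

def D := V A × V A

instance : AddCommGroup (D A) := inferInstanceAs (AddCommGroup (V A × V A))
instance : TopologicalSpace (D A) := ⊥
instance : DiscreteTopology (D A) := ⟨rfl⟩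

variable {A}

def β (d e : D A) : A := d.1.prod fun i m => i.1 ^ (m * e.2 i)

theorem β_add (d d' e : D A) : β (d + d') e = β d e * β d' e :=
  Finsupp.prod_add_index' (fun _ => by simp) (fun _ _ _ => by rw [add_mul, zpow_add])

theorem add_β (d e e' : D A) : β d (e + e') = β d e * β d e' := by
  unfold β
  rw [← Finsupp.prod_mul]
  refine Finsupp.prod_congr fun i _ => ?_
  rw [← zpow_add, ← mul_add]
  rfl

theorem β_zero (e : D A) : β 0 e = 1 := Finsupp.prod_zero_index

theorem zero_β (d : D A) : β d 0 = 1 := by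
  have := add_β d 0 0
  rw [add_zero] at this
  exact mul_eq_left.1 this.symm

theorem β_neg (d e : D A) : β (-d) e = (β d e)⁻¹ := by
  rw [eq_inv_iff_mul_eq_one, ← β_add, neg_add_cancel, β_zero]

variable (A)

/-- Infinite dimensional Heisenberg type central extension. -/
def H := A × D A

instance : Group (H A) where
  mul g h := (g.1 * h.1 * β g.2 h.2, g.2 + h.2)
  one := (1, 0)
  inv g := (g.1⁻¹ * β g.2 g.2, -g.2)
  mul_assoc g h k := by
    refine Prod.ext ?_ (add_assoc _ _ _)
    show g.1 * h.1 * β g.2 h.2 * k.1 * β (g.2 + h.2) k.2 =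
      g.1 * (h.1 * k.1 * β h.2 k.2) * β g.2 (h.2 + k.2)
    rw [β_add, add_β]
    simp only [mul_assoc, mul_comm, mul_left_comm]
  one_mul g := by
    refine Prod.ext ?_ (zero_add _)
    show 1 * g.1 * β 0 g.2 = g.1
    simp [β_zero]
  mul_one g := by
    refine Prod.ext ?_ (add_zero _)
    show g.1 * 1 * β g.2 0 = g.1
    simp [zero_β]
  inv_mul_cancel g := by
    refine Prod.ext ?_ (neg_add_cancel _)
    show g.1⁻¹ * β g.2 g.2 * g.1 * β (-g.2) g.2 = 1
    rw [β_neg]
    simp [mul_assoc, mul_comm, mul_left_comm]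

variable {A}

theorem mul1 (g h : H A) : (g * h).1 = g.1 * h.1 * β g.2 h.2 := rfl
theorem mul2 (g h : H A) : (g * h).2 = g.2 + h.2 := rfl

def ι (a : A) : H A := (a, 0)
def X (a : A) (k : ℕ) : H A := (1, ((Finsupp.single (a, k) 1, 0) : V A × V A))
def Y (a : A) (k : ℕ) : H A := (1, ((0, Finsupp.single (a, k) 1) : V A × V A))

theorem XY (a : A) (k j : ℕ) : X a k * Y a j = ι (if k = j then a else 1) * (Y a j * X a k) := by
  refine Prod.ext ?_ ?_
  · rw [mul1, mul1, mul1]
    have h1 : β (X a k).2 (Y a j).2 = if k = j then a else 1 := by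
      classical
      show (Finsupp.single (a, k) (1 : ℤ)).prod (fun i m => i.1 ^ (m *
        (Finsupp.single (a, j) (1 : ℤ)) i)) = _
      rw [Finsupp.prod_single_index (by simp)]
      by_cases h : k = j
      · simp [h]
      · simp [h, Finsupp.single_apply, Ne.symm h]
    have h2 : β (Y a j).2 (X a k).2 = 1 := Finsupp.prod_zero_index
    have h3 : ∀ e, β (ι (if k = j then a else 1)).2 e = 1 := β_zero
    rw [h1, h2, h3]
    simp [X, Y, ι]
  · rw [mul2, mul2, mul2, add_comm]
    exact (zero_add _).symm

theorem kill {n : ℕ} (ρ : H A →* GL (Fin n) ℂ) (a : A) : ρ (ι a) = 1 := by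
  by_contra hne
  let C : ℕ → Submodule ℂ (Matrix (Fin n) (Fin n) ℂ) := fun k =>
    { carrier := {M | ∀ j < k, (ρ (X a j)).1 * M = M * (ρ (X a j)).1}
      add_mem' := fun hM hN j hj => by rw [mul_add, add_mul, hM j hj, hN j hj]
      zero_mem' := fun j _ => by simp
      smul_mem' := fun c M hM j hj => by rw [mul_smul_comm, smul_mul_assoc, hM j hj] }
  refine not_strictAnti_of_wellFoundedLT C (strictAnti_nat_of_succ_lt fun k => ?_)
  refine lt_of_le_of_ne (fun M hM j hj => hM j (by omega)) fun h => hne ?_
  have h1 : (ρ (Y a k)).1 ∈ C k := by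
    intro j hj
    have := XY a j k
    rw [if_neg hj.ne, show ι (1 : A) = 1 from rfl, one_mul] at this
    rw [← Units.val_mul, ← Units.val_mul, ← map_mul, ← map_mul, this]
  rw [← h] at h1
  have h2 := h1 k (by omega)
  rw [← Units.val_mul, ← Units.val_mul, ← map_mul, ← map_mul, XY, if_pos rfl, map_mul,
    Units.val_inj] at h2
  exact mul_eq_right.1 h2

variable [TopologicalSpace A]

instance : TopologicalSpace (H A) := inferInstanceAs (TopologicalSpace (A × D A))

theorem c1 : Continuous fun g : H A => g.1 := continuous_fst (X := A) (Y := D A)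
theorem c2 : Continuous fun g : H A => g.2 := continuous_snd (X := A) (Y := D A)

theorem sep (g : H A) (hg : g ∈ KO (H A)) (φ : D A →+ ℤ) : φ g.2 = 0 := by
  let s : ℂˣ →* GL (Fin 1) ℂ := Units.map (Matrix.scalar (Fin 1)).toMonoidHom
  let f : D A → GL (Fin 1) ℂ := fun d => s (Units.mk0 2 two_ne_zero ^ φ d)
  let ρ : H A →* GL (Fin 1) ℂ := MonoidHom.mk' (fun g => f g.2) fun g h => by
    simp only [f, mul2, map_add, zpow_add, map_mul]
  have hc : Continuous ρ := (continuous_of_discreteTopology (f := f)).comp c2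
  simp only [KO, Subgroup.mem_iInf] at hg
  have h1 : s (Units.mk0 2 two_ne_zero ^ φ g.2) = s 1 := (hg 1 ρ hc).trans (map_one s).symm
  have h2 := Units.map_injective (f := (Matrix.scalar (Fin 1) : ℂ →+* _).toMonoidHom)
    (fun _ _ h => Matrix.scalar_inj.1 h) h1
  have h3 : ((2 : ℝ) : ℂ) ^ φ g.2 = 1 := by simpa using congrArg Units.val h2
  have h4 : (2 : ℝ) ^ φ g.2 = 1 := by exact_mod_cast h3
  exact (zpow_eq_one_iff_right₀ (by norm_num) (by norm_num)).1 h4

theorem mem_iff (g : H A) : g ∈ KO (H A) ↔ g.2 = 0 := by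
  constructor
  · intro hg
    refine Prod.ext (Finsupp.ext fun i => ?_) (Finsupp.ext fun i => ?_)
    · exact sep g hg ((Finsupp.applyAddHom i).comp (AddMonoidHom.fst (V A) (V A)))
    · exact sep g hg ((Finsupp.applyAddHom i).comp (AddMonoidHom.snd (V A) (V A)))
  · intro hg
    simp only [KO, Subgroup.mem_iInf]
    intro n ρ _
    have : g = ι g.1 := Prod.ext rfl hg
    rw [this]
    exact kill ρ _

end

theorem result (A : Type u) [CommGroup A] [TopologicalSpace A] [IsTopologicalGroup A]
    [T2Space A] [LocallyCompactSpace A] :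
    ∃ (G : Type u) (_ : Group G) (_ : TopologicalSpace G), IsTopologicalGroup G ∧ T2Space G ∧
      LocallyCompactSpace G ∧ Nonempty (KO G ≃ₜ* A) ∧
      IsOpen (KO G : Set G) ∧ KO G ≤ Subgroup.center G := by
  refine ⟨H A, inferInstance, inferInstance, ?_, inferInstanceAs (T2Space (A × D A)),
    inferInstanceAs (LocallyCompactSpace (A × D A)), ⟨?_⟩, ?_, ?_⟩
  · have hb : Continuous fun q : D A × D A => β q.1 q.2 := continuous_of_discreteTopology
    have ha : Continuous fun q : D A × D A => q.1 + q.2 := continuous_of_discreteTopology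
    have hn : Continuous fun q : D A => -q := continuous_of_discreteTopology
    have h2 : Continuous fun q : H A × H A => (q.1.2, q.2.2) :=
      (c2.comp continuous_fst).prodMk (c2.comp continuous_snd)
    exact
      { continuous_mul := Continuous.prodMk (((c1.comp continuous_fst).mul
          (c1.comp continuous_snd)).mul (hb.comp h2)) (ha.comp h2)
        continuous_inv := Continuous.prodMk (c1.inv.mul (hb.comp (c2.prodMk c2))) (hn.comp c2) }
  · exact
      { toFun := fun g => g.1.1
        invFun := fun a => ⟨ι a, (mem_iff _).2 rfl⟩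
        left_inv := fun g => Subtype.ext (Prod.ext rfl ((mem_iff _).1 g.2).symm)
        right_inv := fun a => rfl
        map_mul' := fun g h => by
          show (g.1 * h.1).1 = _
          rw [mul1, (mem_iff _).1 g.2, β_zero, mul_one]
        continuous_toFun := c1.comp continuous_subtype_val
        continuous_invFun := Continuous.subtype_mk
          (Continuous.prodMk continuous_id continuous_const) _ }
  · have : (KO (H A) : Set (H A)) = (fun g : H A => g.2) ⁻¹' {0} := Set.ext mem_iff
    rw [this]
    exact (isOpen_discrete _).preimage c2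
  · intro g hg
    rw [mem_iff] at hg
    refine Subgroup.mem_center_iff.2 fun h => Prod.ext ?_ ?_
    · rw [mul1, mul1, hg, β_zero, zero_β, mul_comm h.1]
    · rw [mul2, mul2, add_comm]

end Pool.Agent.Results.MP_607283_al.KO
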